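import Pool.Agent.Helper76.SGA.Goals

/-!
# Project SG (MP_a41896_nt), packet SGA-GELARCH: the archimedean part of Gelfond's inequality for
many factors
-/

set_option autoImplicit false

open MvPolynomial

namespace Pool.Agent.Helper31.SGA

noncomputable section

/-- the Mahler measure is at most the maximum on the unit circle. -/
theorem mahler_le (p : Polynomial ℂ) : ∃ z : ℂ, ‖z‖ = 1 ∧ p.mahlerMeasure ≤ ‖p.eval z‖ := by
  have hne : (Metric.sphere (0 : ℂ) 1).Nonempty := ⟨1, by simp⟩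
  obtain ⟨z, hz, hmax⟩ := (isCompact_sphere (0 : ℂ) 1).exists_isMaxOn hne
    (f := fun z => ‖p.eval z‖) (p.continuous.norm.continuousOn)
  refine ⟨z, by simpa using hz, ?_⟩
  refine le_of_forall_pos_le_add fun ε hε => ?_
  set S : ℝ := ‖p.eval z‖ + ε with hS
  have hS0 : 0 < S := by positivity
  set q : Polynomial ℂ := Polynomial.C ((S : ℂ)⁻¹) * p with hq
  have h1 : q.mahlerMeasure = S⁻¹ * p.mahlerMeasure := by
    rw [hq, Polynomial.mahlerMeasure_mul, Polynomial.mahlerMeasure_const, norm_inv,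
      Complex.norm_real, Real.norm_of_nonneg hS0.le]
  have h2 : q.mahlerMeasure ≤ 1 := by
    by_cases hq0 : q = 0
    · rw [hq0, Polynomial.mahlerMeasure_zero]
      exact zero_le_one
    · unfold Polynomial.mahlerMeasure
      rw [if_pos hq0, Real.exp_le_one_iff, Polynomial.logMahlerMeasure_def]
      refine Real.circleAverage_mono_on_of_le_circle ?_ fun x hx => ?_
      · exact q.intervalIntegrable_mahlerMeasure
      · refine Real.log_nonpos (norm_nonneg _) ?_
        rw [abs_one] at hx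
        have h3 : ‖p.eval x‖ ≤ ‖p.eval z‖ := hmax hx
        rw [hq, Polynomial.eval_mul, Polynomial.eval_C, norm_mul, norm_inv, Complex.norm_real,
          Real.norm_of_nonneg hS0.le, inv_mul_le_iff₀ hS0, mul_one]
        linarith
  rw [h1, inv_mul_le_iff₀ hS0, mul_one] at h2
  exact h2

/-- the polynomial in the first variable formed by the coefficients of a monomial in the others. -/
def slice {m : ℕ} (p : Polynomial (MvPolynomial (Fin m) ℂ)) (α : Fin m →₀ ℕ) : Polynomial ℂ :=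
  ∑ j ∈ Finset.range (p.natDegree + 1), Polynomial.monomial j (coeff α (p.coeff j))

theorem slice_coeff {m : ℕ} (p : Polynomial (MvPolynomial (Fin m) ℂ)) (α : Fin m →₀ ℕ) (j : ℕ) :
    (slice p α).coeff j = coeff α (p.coeff j) := by
  unfold slice
  rw [Polynomial.finsetSum_coeff]
  by_cases hj : j < p.natDegree + 1
  · rw [Finset.sum_eq_single j]
    · rw [Polynomial.coeff_monomial, if_pos rfl]
    · intro k _ hk
      rw [Polynomial.coeff_monomial, if_neg hk]
    · intro h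
      exact absurd (Finset.mem_range.2 hj) h
  · rw [Finset.sum_eq_zero, Polynomial.coeff_eq_zero_of_natDegree_lt (by omega), coeff_zero]
    intro k hk
    rw [Finset.mem_range] at hk
    rw [Polynomial.coeff_monomial, if_neg (by omega)]

theorem slice_natDegree {m : ℕ} (p : Polynomial (MvPolynomial (Fin m) ℂ)) (α : Fin m →₀ ℕ) :
    (slice p α).natDegree ≤ p.natDegree := by
  rw [Polynomial.natDegree_le_iff_coeff_eq_zero]
  intro j hj
  rw [slice_coeff, Polynomial.coeff_eq_zero_of_natDegree_lt hj, coeff_zero]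

theorem slice_eval {m : ℕ} (p : Polynomial (MvPolynomial (Fin m) ℂ)) (α : Fin m →₀ ℕ) (z : ℂ) :
    (slice p α).eval z = coeff α (p.eval (C z)) := by
  rw [Polynomial.eval_eq_sum_range' (n := p.natDegree + 1) (by omega) (C z), coeff_sum]
  unfold slice
  rw [Polynomial.eval_finsetSum]
  refine Finset.sum_congr rfl fun j _ => ?_
  rw [Polynomial.eval_monomial, ← C_pow, mul_comm (p.coeff j), coeff_C_mul, mul_comm]

theorem degreeOf_eval {m : ℕ} (f : MvPolynomial (Fin (m + 1)) ℂ) (z : ℂ) (h : Fin m) :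
    ((finSuccEquiv ℂ m f).eval (C z)).degreeOf h ≤ f.degreeOf h.succ := by
  rw [Polynomial.eval_eq_sum_range]
  refine (degreeOf_sum_le _ _ _).trans (Finset.sup_le fun j _ => ?_)
  rw [← C_pow]
  exact (degreeOf_mul_C_le _ _ _).trans (degreeOf_coeff_finSuccEquiv f h j)

/-- the claim of the packet. -/
theorem claim (m : ℕ) : ∀ (ι : Type) (s : Finset ι) (f : ι → MvPolynomial (Fin m) ℂ)
    (e : ι → (Fin m →₀ ℕ)), ∃ z : Fin m → ℂ, (∀ h, ‖z h‖ = 1) ∧
      ∏ i ∈ s, ‖coeff (e i) (f i)‖ ≤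
        2 ^ (∑ i ∈ s, ∑ h, (f i).degreeOf h) * ∏ i ∈ s, ‖eval z (f i)‖ := by
  induction m with
  | zero =>
    intro ι s f e
    refine ⟨Fin.elim0, fun h => h.elim0, ?_⟩
    have h1 : ∀ i ∈ s, ‖coeff (e i) (f i)‖ = ‖eval Fin.elim0 (f i)‖ := by
      intro i _
      rw [Subsingleton.elim (e i) 0]
      conv_rhs => rw [eq_C_of_isEmpty (f i)]
      rw [eval_C]
    rw [Finset.prod_congr rfl h1]
    simp
  | succ m ih =>
    intro ι s f e
    set a : ι → Polynomial ℂ := fun i => slice (finSuccEquiv ℂ m (f i)) (e i).tail with ha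
    obtain ⟨z0, hz0, hM⟩ := mahler_le (∏ i ∈ s, a i)
    set g : ι → MvPolynomial (Fin m) ℂ := fun i => (finSuccEquiv ℂ m (f i)).eval (C z0) with hg
    obtain ⟨z, hz, hI⟩ := ih ι s g fun i => (e i).tail
    refine ⟨Fin.cons z0 z, fun h => ?_, ?_⟩
    · refine Fin.cases ?_ (fun h => ?_) h
      · simpa using hz0
      · simpa using hz h
    have hcoef : ∀ i, coeff (e i) (f i) = (a i).coeff (e i 0) := by
      intro i
      rw [ha]
      simp only [slice_coeff]
      rw [finSuccEquiv_coeff_coeff, Finsupp.cons_tail]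
    have h1 : ∀ i ∈ s, ‖coeff (e i) (f i)‖ ≤ 2 ^ ((f i).degreeOf 0) * (a i).mahlerMeasure := by
      intro i _
      rw [hcoef i]
      refine (Polynomial.norm_coeff_le_choose_mul_mahlerMeasure (e i 0) (a i)).trans ?_
      refine mul_le_mul_of_nonneg_right ?_ (Polynomial.mahlerMeasure_nonneg _)
      have h2 : (a i).natDegree ≤ (f i).degreeOf 0 := by
        rw [← natDegree_finSuccEquiv]
        exact slice_natDegree _ _
      calc (((a i).natDegree.choose (e i 0) : ℕ) : ℝ) ≤ ((2 ^ (a i).natDegree : ℕ) : ℝ) := by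
            exact_mod_cast Nat.choose_le_two_pow _ _
        _ = 2 ^ (a i).natDegree := by push_cast; rfl
        _ ≤ 2 ^ ((f i).degreeOf 0) := pow_le_pow_right₀ (by norm_num) h2
    have h3 : ∏ i ∈ s, (a i).mahlerMeasure ≤ ∏ i ∈ s, ‖coeff (e i).tail (g i)‖ := by
      have h4 : ∏ i ∈ s, (a i).mahlerMeasure = (∏ i ∈ s, a i).mahlerMeasure := by
        rw [Finset.prod_eq_multiset_prod, Finset.prod_eq_multiset_prod,
          Polynomial.prod_mahlerMeasure_eq_mahlerMeasure_prod, Multiset.map_map]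
        rfl
      rw [h4]
      refine hM.trans (le_of_eq ?_)
      rw [Polynomial.eval_prod, norm_prod]
      refine Finset.prod_congr rfl fun i _ => ?_
      rw [ha, hg]
      simp only [slice_eval]
    have h5 : ∀ i, eval z (g i) = eval (Fin.cons z0 z : Fin (m + 1) → ℂ) (f i) := by
      intro i
      rw [eval_eq_eval_mv_eval', Polynomial.eval_map, hg]
      simp only
      conv_rhs => rw [← eval_C (f := z) z0]
      rw [Polynomial.eval₂_at_apply]
    have h6 : ∑ i ∈ s, (f i).degreeOf 0 + ∑ i ∈ s, ∑ h, (g i).degreeOf h ≤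
        ∑ i ∈ s, ∑ h, (f i).degreeOf h := by
      rw [← Finset.sum_add_distrib]
      refine Finset.sum_le_sum fun i _ => ?_
      rw [Fin.sum_univ_succ]
      exact add_le_add le_rfl (Finset.sum_le_sum fun h _ => degreeOf_eval (f i) z0 h)
    have hG : (0 : ℝ) ≤ ∏ i ∈ s, ‖eval z (g i)‖ := Finset.prod_nonneg fun i _ => norm_nonneg _
    calc ∏ i ∈ s, ‖coeff (e i) (f i)‖
        ≤ ∏ i ∈ s, (2 ^ ((f i).degreeOf 0) * (a i).mahlerMeasure) :=
          Finset.prod_le_prod (fun i _ => norm_nonneg _) h1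
      _ = 2 ^ (∑ i ∈ s, (f i).degreeOf 0) * ∏ i ∈ s, (a i).mahlerMeasure := by
          rw [Finset.prod_mul_distrib, Finset.prod_pow_eq_pow_sum]
      _ ≤ 2 ^ (∑ i ∈ s, (f i).degreeOf 0) * ∏ i ∈ s, ‖coeff (e i).tail (g i)‖ :=
          mul_le_mul_of_nonneg_left h3 (by positivity)
      _ ≤ 2 ^ (∑ i ∈ s, (f i).degreeOf 0) *
          (2 ^ (∑ i ∈ s, ∑ h, (g i).degreeOf h) * ∏ i ∈ s, ‖eval z (g i)‖) :=
          mul_le_mul_of_nonneg_left hI (by positivity)
      _ = 2 ^ (∑ i ∈ s, (f i).degreeOf 0 + ∑ i ∈ s, ∑ h, (g i).degreeOf h) *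
          ∏ i ∈ s, ‖eval z (g i)‖ := by rw [pow_add, mul_assoc]
      _ ≤ 2 ^ (∑ i ∈ s, ∑ h, (f i).degreeOf h) * ∏ i ∈ s, ‖eval z (g i)‖ :=
          mul_le_mul_of_nonneg_right (pow_le_pow_right₀ (by norm_num) h6) hG
      _ = _ := by
          congr 1
          exact Finset.prod_congr rfl fun i _ => by rw [h5 i]

/-- the number of monomials. -/
theorem card_support_le {m : ℕ} (F : MvPolynomial (Fin m) ℂ) :
    F.support.card ≤ 2 ^ (∑ h, F.degreeOf h) := by
  classical
  have h1 : F.support.card ≤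
      (Fintype.piFinset fun h : Fin m => Finset.range (F.degreeOf h + 1)).card := by
    refine Finset.card_le_card_of_injOn (fun d h => d h) (fun d hd => ?_) (fun d _ d' _ h => ?_)
    · rw [Finset.mem_coe, Fintype.mem_piFinset]
      intro h
      rw [Finset.mem_range, Nat.lt_succ_iff]
      exact monomial_le_degreeOf h hd
    · exact Finsupp.ext fun i => congrFun h i
  refine h1.trans ?_
  rw [Fintype.card_piFinset, ← Finset.prod_pow_eq_pow_sum]
  refine Finset.prod_le_prod' fun h _ => ?_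
  rw [Finset.card_range]
  exact Nat.lt_two_pow_self

theorem eval_le {m : ℕ} (F : MvPolynomial (Fin m) ℂ) (hF : F ≠ 0) (z : Fin m → ℂ)
    (hz : ∀ h, ‖z h‖ = 1) : ∃ μ : Fin m →₀ ℕ,
      ‖eval z F‖ ≤ 2 ^ (∑ h, F.degreeOf h) * ‖coeff μ F‖ := by
  classical
  obtain ⟨μ, hμ, hmax⟩ := Finset.exists_max_image F.support (fun d => ‖coeff d F‖)
    (support_nonempty.2 hF)
  refine ⟨μ, ?_⟩
  rw [eval_eq']
  calc ‖∑ d ∈ F.support, coeff d F * ∏ i, z i ^ d i‖
      ≤ ∑ d ∈ F.support, ‖coeff d F * ∏ i, z i ^ d i‖ := norm_sum_le _ _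
    _ ≤ ∑ _d ∈ F.support, ‖coeff μ F‖ := by
        refine Finset.sum_le_sum fun d hd => ?_
        rw [norm_mul, norm_prod]
        have h1 : ∏ i, ‖z i ^ d i‖ = 1 := Finset.prod_eq_one fun i _ => by
          rw [norm_pow, hz, one_pow]
        rw [h1, mul_one]
        exact hmax d hd
    _ = F.support.card * ‖coeff μ F‖ := by rw [Finset.sum_const, nsmul_eq_mul]
    _ ≤ 2 ^ (∑ h, F.degreeOf h) * ‖coeff μ F‖ := by
        refine mul_le_mul_of_nonneg_right ?_ (norm_nonneg _)
        exact_mod_cast card_support_le F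

theorem gelarch : Pool.Agent.Helper42.SG.GELARCH := by
  intro m ι s f e hf
  obtain ⟨z, hz, h1⟩ := claim m ι s f e
  have hF : ∏ i ∈ s, f i ≠ 0 := Finset.prod_ne_zero_iff.2 hf
  obtain ⟨μ, h2⟩ := eval_le (∏ i ∈ s, f i) hF z hz
  refine ⟨μ, h1.trans ?_⟩
  have h3 : ∑ i ∈ s, ∑ h, (f i).degreeOf h = ∑ h, (∏ i ∈ s, f i).degreeOf h := by
    rw [Finset.sum_comm]
    refine Finset.sum_congr rfl fun h _ => ?_
    rw [degreeOf_prod_eq s f hf]
  have h4 : ∏ i ∈ s, ‖eval z (f i)‖ = ‖eval z (∏ i ∈ s, f i)‖ := by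
    rw [map_prod, norm_prod]
  rw [h3, h4]
  calc 2 ^ (∑ h, (∏ i ∈ s, f i).degreeOf h) * ‖eval z (∏ i ∈ s, f i)‖
      ≤ 2 ^ (∑ h, (∏ i ∈ s, f i).degreeOf h) *
        (2 ^ (∑ h, (∏ i ∈ s, f i).degreeOf h) * ‖coeff μ (∏ i ∈ s, f i)‖) :=
        mul_le_mul_of_nonneg_left h2 (by positivity)
    _ = 4 ^ (∑ h, (∏ i ∈ s, f i).degreeOf h) * ‖coeff μ (∏ i ∈ s, f i)‖ := by
        rw [← mul_assoc, ← mul_pow]
        norm_num

end

end Pool.Agent.Helper31.SGA
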